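import Pool.Agent.helper43.NS.Defs

/-!
Strong form of the lower bound for the normal order of `max_{m<n} (τ(m)+m-n)`: the mass of the
conflicting families (module J2).
-/

open Finset

namespace Pool.Agent.helper34.NS

open Pool.Agent.helper43.NO Pool.Agent.helper43.NS

/-- `∑_{T ⊆ P} B^|T| / ∏ T = ∏ (1 + B/p)` -/
lemma sum_pow_div (P : Finset ℕ) (B : ℝ) :
    ∑ T ∈ P.powerset, B ^ T.card / ((∏ p ∈ T, p : ℕ) : ℝ) = pr P B := by
  unfold pr
  rw [Finset.prod_one_add]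
  refine Finset.sum_congr rfl fun T _ => ?_
  rw [Finset.prod_div_distrib, Finset.prod_const, Nat.cast_prod]

/-- the part of the sum with `p ∈ T` -/
lemma sum_mem_le (P : Finset ℕ) (B : ℝ) (hB : 0 ≤ B) (p : ℕ) (hp : p ∈ P) :
    ∑ T ∈ P.powerset, (B ^ T.card / ((∏ p ∈ T, p : ℕ) : ℝ)) * (if p ∉ T then 0 else 1) ≤
      B / (p : ℝ) * pr P B := by
  classical
  have hpr : pr P B = (1 + B / (p : ℝ)) * pr (P.erase p) B := by
    unfold pr
    rw [← Finset.mul_prod_erase P (fun q => 1 + B / (q : ℝ)) hp]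
  have h0 : 0 ≤ pr (P.erase p) B := Finset.prod_nonneg fun q _ => by positivity
  have hins : P.powerset = (insert p (P.erase p)).powerset := by rw [Finset.insert_erase hp]
  have hdiv : 0 ≤ B / (p : ℝ) := by positivity
  rw [hins, Finset.sum_powerset_insert (Finset.notMem_erase p P)]
  have h1 : ∑ T ∈ (P.erase p).powerset,
      (B ^ T.card / ((∏ p ∈ T, p : ℕ) : ℝ)) * (if p ∉ T then (0 : ℝ) else 1) = 0 := by
    refine Finset.sum_eq_zero fun T hT => ?_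
    have : p ∉ T := fun h => Finset.notMem_erase p P (Finset.mem_powerset.1 hT h)
    simp [this]
  have h2 : ∑ T ∈ (P.erase p).powerset,
      (B ^ (insert p T).card / ((∏ p ∈ insert p T, p : ℕ) : ℝ)) *
        (if p ∉ insert p T then (0 : ℝ) else 1) = B / (p : ℝ) * pr (P.erase p) B := by
    rw [← sum_pow_div, Finset.mul_sum]
    refine Finset.sum_congr rfl fun T hT => ?_
    have hT' : p ∉ T := fun h => Finset.notMem_erase p P (Finset.mem_powerset.1 hT h)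
    rw [Finset.card_insert_of_notMem hT', Finset.prod_insert hT', pow_succ, Nat.cast_mul]
    simp only [Finset.mem_insert_self, not_true_eq_false, if_false, mul_one]
    rw [div_mul_div_comm, mul_comm (B ^ T.card) B]
  rw [h1, h2, zero_add, hpr]
  refine mul_le_mul_of_nonneg_left ?_ hdiv
  nlinarith

/-- the mass of the families with `p ∈ τ i ∩ τ j` -/
lemma pair_mass {ι : Type} [Fintype ι] [DecidableEq ι] (P : Finset ℕ) (B : ℝ) (hB : 0 ≤ B)
    (i j : ι) (hij : i ≠ j) (p : ℕ) (hp : p ∈ P) :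
    ∑ τ ∈ Fintype.piFinset (fun _ : ι => P.powerset),
        (if i ≠ j ∧ p ∈ τ i ∧ p ∈ τ j then (1 : ℝ) else 0) *
          ∏ k, (B ^ (τ k).card / ((∏ p ∈ τ k, p : ℕ) : ℝ)) ≤
      (B / (p : ℝ)) ^ 2 * (pr P B) ^ (Fintype.card ι) := by
  classical
  have hX0 : 0 ≤ pr P B := Finset.prod_nonneg fun q _ => by positivity
  have h1 : ∀ τ ∈ Fintype.piFinset (fun _ : ι => P.powerset),
      (if i ≠ j ∧ p ∈ τ i ∧ p ∈ τ j then (1 : ℝ) else 0) *
          ∏ k, (B ^ (τ k).card / ((∏ p ∈ τ k, p : ℕ) : ℝ)) =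
      ∏ k, ((B ^ (τ k).card / ((∏ p ∈ τ k, p : ℕ) : ℝ)) *
        (if (k = i ∨ k = j) ∧ p ∉ τ k then (0 : ℝ) else 1)) := by
    intro τ _
    by_cases hi : p ∈ τ i
    · by_cases hj : p ∈ τ j
      · rw [if_pos ⟨hij, hi, hj⟩, one_mul]
        refine Finset.prod_congr rfl fun k _ => ?_
        rw [if_neg, mul_one]
        rintro ⟨rfl | rfl, h⟩
        · exact h hi
        · exact h hj
      · rw [if_neg (fun h => hj h.2.2), zero_mul]
        symm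
        refine Finset.prod_eq_zero (Finset.mem_univ j) ?_
        rw [if_pos ⟨Or.inr rfl, hj⟩, mul_zero]
    · rw [if_neg (fun h => hi h.2.1), zero_mul]
      symm
      refine Finset.prod_eq_zero (Finset.mem_univ i) ?_
      rw [if_pos ⟨Or.inl rfl, hi⟩, mul_zero]
  rw [Finset.sum_congr rfl h1]
  have h2 := (Finset.prod_univ_sum (fun _ : ι => P.powerset)
    (fun (k : ι) (T : Finset ℕ) => (B ^ T.card / ((∏ p ∈ T, p : ℕ) : ℝ)) *
        (if (k = i ∨ k = j) ∧ p ∉ T then (0 : ℝ) else 1))).symm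
  rw [h2]
  have h3 : ∏ k : ι, ∑ T ∈ P.powerset, (B ^ T.card / ((∏ p ∈ T, p : ℕ) : ℝ)) *
        (if (k = i ∨ k = j) ∧ p ∉ T then (0 : ℝ) else 1) ≤
      ∏ k : ι, ((if k = i ∨ k = j then B / (p : ℝ) else 1) * pr P B) := by
    refine Finset.prod_le_prod (fun k _ => ?_) (fun k _ => ?_)
    · refine Finset.sum_nonneg fun T _ => mul_nonneg (by positivity) ?_
      split_ifs <;> norm_num
    · by_cases hk : k = i ∨ k = j
      · simp only [hk, true_and, if_true]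
        exact sum_mem_le P B hB p hp
      · simp only [hk, false_and, if_false, mul_one, one_mul]
        exact (sum_pow_div P B).le
  refine h3.trans (le_of_eq ?_)
  rw [Finset.prod_mul_distrib, Finset.prod_const, Finset.card_univ]
  congr 1
  rw [Finset.prod_eq_mul i j hij (fun c _ hc => by simp [hc.1, hc.2])
    (fun h => absurd (Finset.mem_univ i) h) (fun h => absurd (Finset.mem_univ j) h)]
  simp [sq]

/-- the union bound -/
lemma union_bd {ι : Type} [Fintype ι] [DecidableEq ι] (P : Finset ℕ)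
    (F : Finset (ι → Finset ℕ)) (hF : ∀ τ ∈ F, ∀ i, τ i ⊆ P)
    (W : (ι → Finset ℕ) → ℝ) (hW : ∀ τ, 0 ≤ W τ) :
    ∑ τ ∈ F.filter (fun τ => ∃ i j, i ≠ j ∧ ¬ Disjoint (τ i) (τ j)), W τ ≤
      ∑ i : ι, ∑ j : ι, ∑ p ∈ P, ∑ τ ∈ F,
        (if i ≠ j ∧ p ∈ τ i ∧ p ∈ τ j then (1 : ℝ) else 0) * W τ := by
  classical
  have hterm : ∀ (τ : ι → Finset ℕ) (i j : ι) (p : ℕ),
      0 ≤ (if i ≠ j ∧ p ∈ τ i ∧ p ∈ τ j then (1 : ℝ) else 0) * W τ := by
    intro τ i j p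
    refine mul_nonneg ?_ (hW τ)
    split_ifs
    · exact zero_le_one
    · exact le_rfl
  have h0 : ∀ τ ∈ F.filter (fun τ => ∃ i j, i ≠ j ∧ ¬ Disjoint (τ i) (τ j)),
      W τ ≤ ∑ i : ι, ∑ j : ι, ∑ p ∈ P,
        (if i ≠ j ∧ p ∈ τ i ∧ p ∈ τ j then (1 : ℝ) else 0) * W τ := by
    intro τ hτ
    obtain ⟨hτF, i, j, hij, hd⟩ := Finset.mem_filter.1 hτ
    obtain ⟨p, hpi, hpj⟩ := Finset.not_disjoint_iff.1 hd
    have hpP : p ∈ P := hF τ hτF i hpi
    have e0 : W τ = (if i ≠ j ∧ p ∈ τ i ∧ p ∈ τ j then (1 : ℝ) else 0) * W τ := by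
      rw [if_pos ⟨hij, hpi, hpj⟩, one_mul]
    have e1 : (if i ≠ j ∧ p ∈ τ i ∧ p ∈ τ j then (1 : ℝ) else 0) * W τ ≤
        ∑ p ∈ P, (if i ≠ j ∧ p ∈ τ i ∧ p ∈ τ j then (1 : ℝ) else 0) * W τ :=
      Finset.single_le_sum
        (f := fun p => (if i ≠ j ∧ p ∈ τ i ∧ p ∈ τ j then (1 : ℝ) else 0) * W τ)
        (fun p _ => hterm τ i j p) hpP
    have e2 : ∑ p ∈ P, (if i ≠ j ∧ p ∈ τ i ∧ p ∈ τ j then (1 : ℝ) else 0) * W τ ≤
        ∑ j : ι, ∑ p ∈ P, (if i ≠ j ∧ p ∈ τ i ∧ p ∈ τ j then (1 : ℝ) else 0) * W τ :=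
      Finset.single_le_sum
        (f := fun j => ∑ p ∈ P, (if i ≠ j ∧ p ∈ τ i ∧ p ∈ τ j then (1 : ℝ) else 0) * W τ)
        (fun j _ => Finset.sum_nonneg fun p _ => hterm τ i j p) (Finset.mem_univ j)
    have e3 : ∑ j : ι, ∑ p ∈ P, (if i ≠ j ∧ p ∈ τ i ∧ p ∈ τ j then (1 : ℝ) else 0) * W τ ≤
        ∑ i : ι, ∑ j : ι, ∑ p ∈ P,
          (if i ≠ j ∧ p ∈ τ i ∧ p ∈ τ j then (1 : ℝ) else 0) * W τ :=
      Finset.single_le_sum
        (f := fun i => ∑ j : ι, ∑ p ∈ P,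
          (if i ≠ j ∧ p ∈ τ i ∧ p ∈ τ j then (1 : ℝ) else 0) * W τ)
        (fun i _ => Finset.sum_nonneg fun j _ => Finset.sum_nonneg fun p _ => hterm τ i j p)
        (Finset.mem_univ i)
    exact e0.le.trans (e1.trans (e2.trans e3))
  have h1 := Finset.sum_le_sum h0
  have h2 : ∑ τ ∈ F.filter (fun τ => ∃ i j, i ≠ j ∧ ¬ Disjoint (τ i) (τ j)),
      ∑ i : ι, ∑ j : ι, ∑ p ∈ P,
        (if i ≠ j ∧ p ∈ τ i ∧ p ∈ τ j then (1 : ℝ) else 0) * W τ ≤
      ∑ τ ∈ F, ∑ i : ι, ∑ j : ι, ∑ p ∈ P,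
        (if i ≠ j ∧ p ∈ τ i ∧ p ∈ τ j then (1 : ℝ) else 0) * W τ :=
    Finset.sum_le_sum_of_subset_of_nonneg (Finset.filter_subset _ _) fun τ _ _ =>
      Finset.sum_nonneg fun i _ => Finset.sum_nonneg fun j _ => Finset.sum_nonneg fun p _ =>
        hterm τ i j p
  refine h1.trans (h2.trans (le_of_eq ?_))
  rw [Finset.sum_comm]
  refine Finset.sum_congr rfl fun i _ => ?_
  rw [Finset.sum_comm]
  refine Finset.sum_congr rfl fun j _ => ?_
  rw [Finset.sum_comm]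

/-- the mass of the conflicting families: union bound over `i ≠ j` and `p ∈ τ i ∩ τ j`; for fixed
`(i, j, p)` the sum factors (`Finset.prod_univ_sum`), `∑_{T ∋ p} B^|T|/∏ T ≤ (B/p) pr P B`, so it is
`≤ (B/p)^2 (pr P B)^n`; `1/p^2 ≤ (1/P0) (1/p)` -/
lemma conflict_mass {ι : Type} [Fintype ι] [DecidableEq ι] (P : Finset ℕ) (P0 : ℕ) (B : ℝ)
    (hP : ∀ p ∈ P, p.Prime ∧ P0 ≤ p) (hP0 : 1 ≤ P0) (hB : 0 ≤ B) :
    ∑ τ ∈ (Fintype.piFinset (fun _ : ι => P.powerset)).filter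
        (fun τ => ∃ i j, i ≠ j ∧ ¬ Disjoint (τ i) (τ j)),
      ∏ i, (B ^ (τ i).card / ((∏ p ∈ τ i, p : ℕ) : ℝ)) ≤
    (Fintype.card ι : ℝ) ^ 2 * B ^ 2 * (∑ p ∈ P, 1 / (p : ℝ)) / P0 *
      (pr P B) ^ (Fintype.card ι) := by
  classical
  have hX0 : 0 ≤ pr P B := Finset.prod_nonneg fun q _ => by positivity
  have hXn : 0 ≤ (pr P B) ^ (Fintype.card ι) := pow_nonneg hX0 _
  have hP0' : (0 : ℝ) < P0 := by exact_mod_cast hP0
  have h1 := union_bd P (Fintype.piFinset (fun _ : ι => P.powerset))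
    (fun τ hτ i => Finset.mem_powerset.1 (Fintype.mem_piFinset.1 hτ i))
    (fun τ => ∏ i, (B ^ (τ i).card / ((∏ p ∈ τ i, p : ℕ) : ℝ)))
    (fun τ => Finset.prod_nonneg fun k _ => by positivity)
  refine h1.trans ?_
  have hb : ∀ i : ι, ∀ j : ι, ∀ p ∈ P, ∑ τ ∈ Fintype.piFinset (fun _ : ι => P.powerset),
      (if i ≠ j ∧ p ∈ τ i ∧ p ∈ τ j then (1 : ℝ) else 0) *
        ∏ k, (B ^ (τ k).card / ((∏ p ∈ τ k, p : ℕ) : ℝ)) ≤
      (B ^ 2 / P0 * (pr P B) ^ (Fintype.card ι)) * (1 / (p : ℝ)) := by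
    intro i j p hp
    have hpp : (P0 : ℝ) ≤ p := by exact_mod_cast (hP p hp).2
    have hp0 : (0 : ℝ) < p := lt_of_lt_of_le hP0' hpp
    by_cases hij : i = j
    · rw [Finset.sum_eq_zero]
      · exact mul_nonneg (mul_nonneg (div_nonneg (sq_nonneg B) hP0'.le) hXn)
          (div_nonneg zero_le_one hp0.le)
      · intro τ _
        rw [if_neg (fun h => h.1 hij), zero_mul]
    · refine (pair_mass P B hB i j hij p hp).trans ?_
      have e : (B / (p : ℝ)) ^ 2 ≤ B ^ 2 / P0 * (1 / (p : ℝ)) := by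
        rw [div_pow, div_mul_div_comm, mul_one]
        refine div_le_div_of_nonneg_left (sq_nonneg B) (mul_pos hP0' hp0) ?_
        rw [sq]
        exact mul_le_mul_of_nonneg_right hpp hp0.le
      calc (B / (p : ℝ)) ^ 2 * (pr P B) ^ (Fintype.card ι)
          ≤ (B ^ 2 / P0 * (1 / (p : ℝ))) * (pr P B) ^ (Fintype.card ι) :=
            mul_le_mul_of_nonneg_right e hXn
        _ = (B ^ 2 / P0 * (pr P B) ^ (Fintype.card ι)) * (1 / (p : ℝ)) := by ring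
  have h2 : ∑ i : ι, ∑ j : ι, ∑ p ∈ P, ∑ τ ∈ Fintype.piFinset (fun _ : ι => P.powerset),
      (if i ≠ j ∧ p ∈ τ i ∧ p ∈ τ j then (1 : ℝ) else 0) *
        ∏ k, (B ^ (τ k).card / ((∏ p ∈ τ k, p : ℕ) : ℝ)) ≤
      ∑ _i : ι, ∑ _j : ι, ∑ p ∈ P,
        (B ^ 2 / P0 * (pr P B) ^ (Fintype.card ι)) * (1 / (p : ℝ)) :=
    Finset.sum_le_sum fun i _ => Finset.sum_le_sum fun j _ => Finset.sum_le_sum fun p hp =>
      hb i j p hp
  refine h2.trans (le_of_eq ?_)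
  rw [← Finset.mul_sum, Finset.sum_const, Finset.sum_const, Finset.card_univ, nsmul_eq_mul,
    nsmul_eq_mul]
  ring

end Pool.Agent.helper34.NS
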